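import Mathlib

/-!
# Modular sets and twisted products
-/

namespace Pool.Agent.Work.MP_a323b2_co

/-- No nontrivial three-term progression modulo `M`. -/
def Free (M : ℕ) (P : Finset ℕ) : Prop :=
  ∀ x ∈ P, ∀ y ∈ P, ∀ z ∈ P, x + z ≡ 2 * y [MOD M] → x = y ∧ z = y

/-- Every residue is `2 q - p` with `p ≤ q`, `p ∈ P`, `q ∈ Q`. -/
def Cov (M : ℕ) (P Q : Finset ℕ) : Prop :=
  ∀ z : ℕ, ∃ p ∈ P, ∃ q ∈ Q, p ≤ q ∧ 2 * q ≡ z + p [MOD M]

/-- Modular sets with `2 ^ m` elements. -/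
structure Md (M m : ℕ) (P : Finset ℕ) : Prop where
  lt : ∀ x ∈ P, x < M
  card : P.card = 2 ^ m
  free : Free M P
  cov : Cov M P P

/-- The value `r` is attained by a modular set. -/
def Single (r : ℕ) : Prop := ∃ (M m : ℕ) (P : Finset ℕ), 0 ∈ P ∧ Md M m P ∧
  ∃ t ∈ P, (∀ x ∈ P, x ≤ t) ∧ 2 * t + 1 = M + r

/-- The value `r` is attained by a modular set with a partner. -/
def Pair (r : ℕ) : Prop := ∃ (M m : ℕ) (P Q : Finset ℕ), 0 ∈ P ∧ Md M m P ∧ Md M m Q ∧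
  Cov M P Q ∧ ∃ t ∈ P, (∀ x ∈ P, x ≤ t) ∧ (∀ x ∈ Q, x < t) ∧ 2 * t + 1 = M + r

theorem Pair.single {r : ℕ} (h : Pair r) : Single r := by
  obtain ⟨M, m, P, Q, h0, hP, _, _, t, ht, h1, _, h3⟩ := h
  exact ⟨M, m, P, h0, hP, t, ht, h1, h3⟩

/-- The twisted product. -/
def lift (b : ℕ) (P Q : Finset ℕ) : Finset ℕ :=
  P.image (fun x => 3 * x) ∪ Q.image (fun x => 3 * x + b)

theorem mem_lift {b : ℕ} {P Q : Finset ℕ} {x : ℕ} :
    x ∈ lift b P Q ↔ (∃ p ∈ P, 3 * p = x) ∨ (∃ q ∈ Q, 3 * q + b = x) := by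
  simp [lift]

theorem modEq_three_mul {M a b : ℕ} : 3 * a ≡ 3 * b [MOD 3 * M] ↔ a ≡ b [MOD M] :=
  Nat.ModEq.mul_left_cancel_iff' (by norm_num)

theorem lift_free {M b : ℕ} (hb : b = 1 ∨ b = 2) {P Q : Finset ℕ} (hP : Free M P)
    (hQ : Free M Q) : Free (3 * M) (lift b P Q) := by
  intro x hx y hy z hz h
  have h3 : x + z ≡ 2 * y [MOD 3] := h.of_mul_right M
  rw [mem_lift] at hx hy hz
  unfold Nat.ModEq at h3
  rcases hx with ⟨x', hx', rfl⟩ | ⟨x', hx', rfl⟩ <;> rcases hy with ⟨y', hy', rfl⟩ | ⟨y', hy', rfl⟩ <;>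
    rcases hz with ⟨z', hz', rfl⟩ | ⟨z', hz', rfl⟩ <;> try (exfalso; rcases hb with rfl | rfl <;> omega)
  · have : 3 * (x' + z') ≡ 3 * (2 * y') [MOD 3 * M] := by
      convert h using 1 <;> ring
    obtain ⟨h1, h2⟩ := hP x' hx' y' hy' z' hz' (modEq_three_mul.1 this)
    exact ⟨by rw [h1], by rw [h2]⟩
  · have : 3 * (x' + z') ≡ 3 * (2 * y') [MOD 3 * M] := by
      have : 3 * (x' + z') + 2 * b ≡ 3 * (2 * y') + 2 * b [MOD 3 * M] := by
        convert h using 1 <;> ring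
      exact Nat.ModEq.add_right_cancel' _ this
    obtain ⟨h1, h2⟩ := hQ x' hx' y' hy' z' hz' (modEq_three_mul.1 this)
    exact ⟨by rw [h1], by rw [h2]⟩

theorem lift_cov {M b : ℕ} (hM : 0 < M) (hb : b = 1 ∨ b = 2) {P0 P1 Q0 Q1 : Finset ℕ}
    (h00 : Cov M P0 Q0) (h11 : Cov M P1 Q1) (h01 : Cov M P0 Q1) :
    Cov (3 * M) (lift b P0 P1) (lift b Q0 Q1) := by
  intro z
  have hz : (∃ z', z = 3 * z') ∨ (∃ z', z = 3 * z' + b) ∨
      (∃ z', z + 3 * M = 3 * z' + 2 * b) := by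
    rcases hb with rfl | rfl
    · rcases (by omega : z % 3 = 0 ∨ z % 3 = 1 ∨ z % 3 = 2) with h | h | h
      · exact Or.inl ⟨z / 3, by omega⟩
      · exact Or.inr (Or.inl ⟨z / 3, by omega⟩)
      · exact Or.inr (Or.inr ⟨z / 3 + M, by omega⟩)
    · rcases (by omega : z % 3 = 0 ∨ z % 3 = 1 ∨ z % 3 = 2) with h | h | h
      · exact Or.inl ⟨z / 3, by omega⟩
      · exact Or.inr (Or.inr ⟨z / 3 + M - 1, by omega⟩)
      · exact Or.inr (Or.inl ⟨z / 3, by omega⟩)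
  rcases hz with ⟨z', rfl⟩ | ⟨z', rfl⟩ | ⟨z', hz⟩
  · obtain ⟨p, hp, q, hq, hpq, h⟩ := h00 z'
    refine ⟨3 * p, mem_lift.2 (Or.inl ⟨p, hp, rfl⟩), 3 * q, mem_lift.2 (Or.inl ⟨q, hq, rfl⟩),
      by omega, ?_⟩
    have := modEq_three_mul.2 h
    convert this using 1 <;> ring
  · obtain ⟨p, hp, q, hq, hpq, h⟩ := h11 z'
    refine ⟨3 * p + b, mem_lift.2 (Or.inr ⟨p, hp, rfl⟩), 3 * q + b,
      mem_lift.2 (Or.inr ⟨q, hq, rfl⟩), by omega, ?_⟩
    have := (modEq_three_mul.2 h).add_right (2 * b)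
    convert this using 1 <;> ring
  · obtain ⟨p, hp, q, hq, hpq, h⟩ := h01 z'
    refine ⟨3 * p, mem_lift.2 (Or.inl ⟨p, hp, rfl⟩), 3 * q + b, mem_lift.2 (Or.inr ⟨q, hq, rfl⟩),
      by omega, ?_⟩
    have h1 := (modEq_three_mul.2 h).add_right (2 * b)
    have h2 : 3 * (z' + p) + 2 * b ≡ z + 3 * p [MOD 3 * M] := by
      have : 3 * (z' + p) + 2 * b = z + 3 * p + 3 * M := by omega
      rw [this]
      exact Nat.add_modEq_right
    have h3 : 2 * (3 * q + b) = 3 * (2 * q) + 2 * b := by ring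
    rw [h3]
    exact h1.trans h2

theorem card_lift {b : ℕ} (hb : b = 1 ∨ b = 2) (P Q : Finset ℕ) :
    (lift b P Q).card = P.card + Q.card := by
  unfold lift
  rw [Finset.card_union_of_disjoint, Finset.card_image_of_injective,
    Finset.card_image_of_injective]
  · intro x y h
    simp only at h
    omega
  · intro x y h
    simp only at h
    omega
  · rw [Finset.disjoint_left]
    intro x hx hy
    simp only [Finset.mem_image] at hx hy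
    obtain ⟨p, _, rfl⟩ := hx
    obtain ⟨q, _, h⟩ := hy
    rcases hb with rfl | rfl <;> omega

theorem lift_lt {b M : ℕ} (hb : b = 1 ∨ b = 2) {P Q : Finset ℕ} (hP : ∀ x ∈ P, x < M)
    (hQ : ∀ x ∈ Q, x < M) : ∀ x ∈ lift b P Q, x < 3 * M := by
  intro x hx
  rcases mem_lift.1 hx with ⟨p, hp, rfl⟩ | ⟨q, hq, rfl⟩
  · have := hP p hp
    omega
  · have := hQ q hq
    rcases hb with rfl | rfl <;> omega

theorem lift_md {b M m : ℕ} (hM : 0 < M) (hb : b = 1 ∨ b = 2) {P Q : Finset ℕ} (hP : Md M m P)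
    (hQ : Md M m Q) (hPQ : Cov M P Q) : Md (3 * M) (m + 1) (lift b P Q) := by
  refine ⟨lift_lt hb hP.lt hQ.lt, ?_, lift_free hb hP.free hQ.free,
    lift_cov hM hb hP.cov hQ.cov hPQ⟩
  rw [card_lift hb, hP.card, hQ.card, pow_succ]
  ring

theorem zero_mem_lift {b : ℕ} {P Q : Finset ℕ} (h : 0 ∈ P) : 0 ∈ lift b P Q :=
  mem_lift.2 (Or.inl ⟨0, h, rfl⟩)

/-- From `r` to `3 r - 2`. -/
theorem Pair.sub {r r' : ℕ} (h : Pair r) (hr : r' + 2 = 3 * r) : Pair r' := by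
  obtain ⟨M, m, P, Q, h0, hP, hQ, hPQ, t, ht, h1, h2, h3⟩ := h
  have hM : 0 < M := lt_of_le_of_lt (Nat.zero_le _) (hP.lt 0 h0)
  refine ⟨3 * M, m + 1, lift 1 P Q, lift 1 Q Q, zero_mem_lift h0,
    lift_md hM (Or.inl rfl) hP hQ hPQ, lift_md hM (Or.inl rfl) hQ hQ hQ.cov,
    lift_cov hM (Or.inl rfl) hPQ hQ.cov hPQ, 3 * t, mem_lift.2 (Or.inl ⟨t, ht, rfl⟩), ?_, ?_,
    by omega⟩
  · intro x hx
    rcases mem_lift.1 hx with ⟨p, hp, rfl⟩ | ⟨q, hq, rfl⟩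
    · have := h1 p hp
      omega
    · have := h2 q hq
      omega
  · intro x hx
    rcases mem_lift.1 hx with ⟨p, hp, rfl⟩ | ⟨q, hq, rfl⟩
    · have := h2 p hp
      omega
    · have := h2 q hq
      omega

/-- From `r` to `3 r - 2 + 2 b`. -/
theorem Pair.add {r r' b : ℕ} (h : Pair r) (hb : b = 1 ∨ b = 2) (hr : r' + 2 = 3 * r + 2 * b) :
    Pair r' := by
  obtain ⟨M, m, P, Q, h0, hP, hQ, hPQ, t, ht, h1, h2, h3⟩ := h
  have hM : 0 < M := lt_of_le_of_lt (Nat.zero_le _) (hP.lt 0 h0)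
  refine ⟨3 * M, m + 1, lift b P P, lift b Q Q, zero_mem_lift h0,
    lift_md hM hb hP hP hP.cov, lift_md hM hb hQ hQ hQ.cov,
    lift_cov hM hb hPQ hPQ hPQ, 3 * t + b, mem_lift.2 (Or.inr ⟨t, ht, rfl⟩), ?_, ?_,
    by omega⟩
  · intro x hx
    rcases mem_lift.1 hx with ⟨p, hp, rfl⟩ | ⟨q, hq, rfl⟩
    · have := h1 p hp
      omega
    · have := h1 q hq
      omega
  · intro x hx
    rcases mem_lift.1 hx with ⟨p, hp, rfl⟩ | ⟨q, hq, rfl⟩
    · have := h2 p hp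
      omega
    · have := h2 q hq
      omega

end Pool.Agent.Work.MP_a323b2_co
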