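import Pool.Agent.Work.MP_a323b2_co.Basic

/-!
# Checking finite data
-/

namespace Pool.Agent.Work.MP_a323b2_co

/-- The bit mask of a list. -/
def maskL : List ℕ → ℕ
  | [] => 0
  | a :: l => Nat.lor (2 ^ a) (maskL l)

theorem testBit_maskL {l : List ℕ} {v : ℕ} : (maskL l).testBit v = true ↔ v ∈ l := by
  induction l with
  | nil => simp [maskL]
  | cons a l ih =>
    have : maskL (a :: l) = 2 ^ a ||| maskL l := rfl
    rw [this, Nat.testBit_or, Bool.or_eq_true, ih, Nat.testBit_two_pow, decide_eq_true_eq,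
      List.mem_cons]
    exact or_congr_left ⟨fun h => h.symm, fun h => h.symm⟩

/-- No nontrivial progression modulo `M`; `k` is the mask of the list. -/
def freeb (M k : ℕ) (l : List ℕ) : Bool :=
  l.all fun x => l.all fun y => Nat.beq x y || !(Nat.testBit k ((2 * y + (M - x)) % M))

theorem freeb_spec {M k : ℕ} {l : List ℕ} (hl : ∀ x ∈ l, x < M) (hk : maskL l = k)
    (h : freeb M k l = true) : Free M l.toFinset := by
  intro x hx y hy z hz hxyz
  rw [List.mem_toFinset] at hx hy hz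
  unfold freeb at h
  rw [List.all_eq_true] at h
  have h1 := h x hx
  rw [List.all_eq_true] at h1
  have h2 := h1 y hy
  rw [Bool.or_eq_true] at h2
  have hxM := hl x hx
  have hyM := hl y hy
  have hzM := hl z hz
  rcases h2 with h2 | h2
  · have hxy : x = y := Nat.eq_of_beq_eq_true h2
    refine ⟨hxy, ?_⟩
    subst hxy
    have h3 : x + z ≡ x + x [MOD M] := by
      have : 2 * x = x + x := by ring
      rwa [this] at hxyz
    have h4 := Nat.ModEq.add_left_cancel' x h3
    unfold Nat.ModEq at h4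
    rwa [Nat.mod_eq_of_lt hzM, Nat.mod_eq_of_lt hxM] at h4
  · exfalso
    have hz' : (2 * y + (M - x)) % M = z := by
      have h3 : 2 * y + (M - x) ≡ z [MOD M] := by
        have h4 : x + (2 * y + (M - x)) ≡ x + z [MOD M] := by
          have : x + (2 * y + (M - x)) = 2 * y + M := by omega
          rw [this]
          exact Nat.ModEq.trans (by simp [Nat.ModEq]) hxyz.symm
        exact Nat.ModEq.add_left_cancel' x h4
      unfold Nat.ModEq at h3
      rwa [Nat.mod_eq_of_lt hzM] at h3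
    rw [hz', ← hk] at h2
    have := testBit_maskL.2 hz
    rw [this] at h2
    simp at h2

/-- One row of the coverage mask. -/
def covrow (M p : ℕ) : List ℕ → ℕ
  | [] => 0
  | q :: l => Nat.lor (bif Nat.ble p q then 2 ^ ((2 * q + (M - p)) % M) else 0) (covrow M p l)

theorem covrow_spec {M p v : ℕ} {l : List ℕ} (h : (covrow M p l).testBit v = true) :
    ∃ q ∈ l, p ≤ q ∧ v = (2 * q + (M - p)) % M := by
  induction l with
  | nil => simp [covrow] at h
  | cons q l ih =>
    have e : covrow M p (q :: l) =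
        (bif Nat.ble p q then 2 ^ ((2 * q + (M - p)) % M) else 0) ||| covrow M p l := rfl
    rw [e, Nat.testBit_or, Bool.or_eq_true] at h
    rcases h with h | h
    · cases hb : Nat.ble p q with
      | false => rw [hb] at h; simp at h
      | true =>
        rw [hb, cond_true, Nat.testBit_two_pow, decide_eq_true_eq] at h
        exact ⟨q, by simp, Nat.le_of_ble_eq_true hb, h.symm⟩
    · obtain ⟨q', h1, h2⟩ := ih h
      exact ⟨q', by simp [h1], h2⟩

/-- The coverage mask. -/
def covmask (M : ℕ) : List ℕ → List ℕ → ℕ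
  | [], _ => 0
  | p :: l, l' => Nat.lor (covrow M p l') (covmask M l l')

theorem covmask_spec {M v : ℕ} {l l' : List ℕ} (h : (covmask M l l').testBit v = true) :
    ∃ p ∈ l, ∃ q ∈ l', p ≤ q ∧ v = (2 * q + (M - p)) % M := by
  induction l with
  | nil => simp [covmask] at h
  | cons p l ih =>
    have e : covmask M (p :: l) l' = covrow M p l' ||| covmask M l l' := rfl
    rw [e, Nat.testBit_or, Bool.or_eq_true] at h
    rcases h with h | h
    · exact ⟨p, by simp, covrow_spec h⟩
    · obtain ⟨p', h1, h2⟩ := ih h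
      exact ⟨p', by simp [h1], h2⟩

/-- The coverage check. -/
def covb (M : ℕ) (l l' : List ℕ) : Bool := Nat.beq (covmask M l l') (2 ^ M - 1)

theorem covb_spec {M : ℕ} (hM : 0 < M) {l l' : List ℕ} (hl : ∀ x ∈ l, x < M)
    (h : covb M l l' = true) : Cov M l.toFinset l'.toFinset := by
  intro z
  have h1 : covmask M l l' = 2 ^ M - 1 := Nat.eq_of_beq_eq_true h
  have h2 : (covmask M l l').testBit (z % M) = true := by
    rw [h1, Nat.testBit_two_pow_sub_one, decide_eq_true_eq]
    exact Nat.mod_lt _ hM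
  obtain ⟨p, hp, q, hq, hpq, hz⟩ := covmask_spec h2
  refine ⟨p, List.mem_toFinset.2 hp, q, List.mem_toFinset.2 hq, hpq, ?_⟩
  have hpM := hl p hp
  have h3 : z ≡ 2 * q + (M - p) [MOD M] := hz
  have h4 := h3.add_right p
  have h5 : 2 * q + (M - p) + p = 2 * q + M := by omega
  rw [h5] at h4
  exact (h4.trans (by simp [Nat.ModEq])).symm

/-- No repetition. -/
def nodupb : List ℕ → Bool
  | [] => true
  | a :: l => !(l.any (Nat.beq a)) && nodupb l

theorem nodupb_spec {l : List ℕ} (h : nodupb l = true) : l.Nodup := by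
  induction l with
  | nil => exact List.nodup_nil
  | cons a l ih =>
    unfold nodupb at h
    rw [Bool.and_eq_true, Bool.not_eq_true', List.any_eq_false] at h
    refine List.nodup_cons.2 ⟨fun ha => ?_, ih h.2⟩
    have := h.1 a ha
    rw [Nat.beq_refl] at this
    exact this rfl

/-- The data of a pair. -/
structure D where
  r : ℕ
  M : ℕ
  m : ℕ
  t : ℕ
  P : List ℕ
  Q : List ℕ
  kP : ℕ
  kQ : ℕ

/-- The data of a single set. -/
structure E where
  r : ℕ
  M : ℕ
  m : ℕ
  t : ℕ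
  P : List ℕ
  kP : ℕ

/-- Check of one modular set. -/
def mdb (M m t k : ℕ) (l : List ℕ) : Bool :=
  Nat.beq l.length (2 ^ m) && nodupb l && (l.all fun x => Nat.ble x t) && Nat.ble (t + 1) M &&
    Nat.beq (maskL l) k && freeb M k l && covb M l l

theorem mdb_spec {M m t k : ℕ} {l : List ℕ} (h : mdb M m t k l = true) :
    Md M m l.toFinset ∧ (∀ x ∈ l.toFinset, x ≤ t) ∧ t < M := by
  unfold mdb at h
  simp only [Bool.and_eq_true] at h
  obtain ⟨⟨⟨⟨⟨⟨h1, h2⟩, h3⟩, h4⟩, h5⟩, h6⟩, h7⟩ := h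
  have htM : t < M := Nat.le_of_ble_eq_true h4
  have hle : ∀ x ∈ l, x ≤ t := by
    intro x hx
    rw [List.all_eq_true] at h3
    exact Nat.le_of_ble_eq_true (h3 x hx)
  have hlt : ∀ x ∈ l, x < M := fun x hx => lt_of_le_of_lt (hle x hx) htM
  refine ⟨⟨?_, ?_, ?_, ?_⟩, ?_, htM⟩
  · intro x hx
    exact hlt x (List.mem_toFinset.1 hx)
  · rw [List.toFinset_card_of_nodup (nodupb_spec h2)]
    exact Nat.eq_of_beq_eq_true h1
  · exact freeb_spec hlt (Nat.eq_of_beq_eq_true h5) h6
  · exact covb_spec (by omega) hlt h7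
  · intro x hx
    exact hle x (List.mem_toFinset.1 hx)

/-- Check of a pair. -/
def chkD (d : D) : Bool :=
  mdb d.M d.m d.t d.kP d.P && mdb d.M d.m (d.t - 1) d.kQ d.Q && covb d.M d.P d.Q &&
    d.P.contains 0 && d.P.contains d.t && Nat.ble 1 d.t && Nat.beq (2 * d.t + 1) (d.M + d.r)

theorem chkD_spec {d : D} (h : chkD d = true) : Pair d.r := by
  unfold chkD at h
  simp only [Bool.and_eq_true] at h
  obtain ⟨⟨⟨⟨⟨⟨h1, h2⟩, h3⟩, h4⟩, h5⟩, h6⟩, h7⟩ := h
  obtain ⟨hP, hP1, hP2⟩ := mdb_spec h1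
  obtain ⟨hQ, hQ1, hQ2⟩ := mdb_spec h2
  have ht : 1 ≤ d.t := Nat.le_of_ble_eq_true h6
  refine ⟨d.M, d.m, d.P.toFinset, d.Q.toFinset, ?_, hP, hQ, ?_, d.t, ?_, hP1, ?_, ?_⟩
  · rw [List.mem_toFinset]
    exact List.contains_iff_mem.1 h4
  · refine covb_spec (by omega) ?_ h3
    intro x hx
    exact hP.lt x (List.mem_toFinset.2 hx)
  · rw [List.mem_toFinset]
    exact List.contains_iff_mem.1 h5
  · intro x hx
    have := hQ1 x hx
    omega
  · exact Nat.eq_of_beq_eq_true h7

/-- Check of a single set. -/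
def chkE (d : E) : Bool :=
  mdb d.M d.m d.t d.kP d.P && d.P.contains 0 && d.P.contains d.t &&
    Nat.beq (2 * d.t + 1) (d.M + d.r)

theorem chkE_spec {d : E} (h : chkE d = true) : Single d.r := by
  unfold chkE at h
  simp only [Bool.and_eq_true] at h
  obtain ⟨⟨⟨h1, h4⟩, h5⟩, h7⟩ := h
  obtain ⟨hP, hP1, hP2⟩ := mdb_spec h1
  refine ⟨d.M, d.m, d.P.toFinset, ?_, hP, d.t, ?_, hP1, ?_⟩
  · rw [List.mem_toFinset]
    exact List.contains_iff_mem.1 h4
  · rw [List.mem_toFinset]
    exact List.contains_iff_mem.1 h5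
  · exact Nat.eq_of_beq_eq_true h7

end Pool.Agent.Work.MP_a323b2_co
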