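import Pool.Agent.Work.MP_a323b2_co.Basic

/-!
# The Stanley sequence of a modular set
-/

namespace Pool.Agent.Work.MP_a323b2_co

/-- The sequence `0, 1, 3, 4, 9, 10, ...`: read the binary digits in base three. -/
def s (n : ℕ) : ℕ := if h : n = 0 then 0 else 3 * s (n / 2) + n % 2
decreasing_by omega

theorem s_zero : s 0 = 0 := by rw [s]; simp

theorem s_even (n : ℕ) : s (2 * n) = 3 * s n := by
  rw [s]
  split_ifs with h
  · have : n = 0 := by omega
    subst this
    simp [s_zero]
  · have h1 : 2 * n / 2 = n := by omega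
    have h2 : 2 * n % 2 = 0 := by omega
    rw [h1, h2]
    rfl

theorem s_odd (n : ℕ) : s (2 * n + 1) = 3 * s n + 1 := by
  rw [s]
  have h1 : (2 * n + 1) / 2 = n := by omega
  have h2 : (2 * n + 1) % 2 = 1 := by omega
  rw [h1, h2]
  simp

theorem s_one : s 1 = 1 := by
  have := s_odd 0
  simpa [s_zero] using this

theorem s_lt : ∀ n m : ℕ, m < n → s m < s n := by
  intro n
  induction n using Nat.strong_induction_on with
  | _ n ih =>
    intro m hm
    rcases Nat.even_or_odd' n with ⟨a, rfl | rfl⟩ <;> rcases Nat.even_or_odd' m with ⟨b, rfl | rfl⟩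
    · rw [s_even, s_even]
      have := ih a (by omega) b (by omega)
      omega
    · rw [s_even, s_odd]
      have := ih a (by omega) b (by omega)
      omega
    · rw [s_odd, s_even]
      rcases Nat.lt_or_ge b a with h | h
      · have := ih a (by omega) b h
        omega
      · have : a = b := by omega
        subst this
        omega
    · rw [s_odd, s_odd]
      have := ih a (by omega) b (by omega)
      omega

theorem s_strictMono : StrictMono s := fun a b h => s_lt b a h

theorem s_free : ∀ a b c : ℕ, s a + s c = 2 * s b → a = b ∧ c = b := by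
  intro a
  induction a using Nat.strong_induction_on with
  | _ a ih =>
    intro b c h
    by_cases ha : a = 0
    · subst ha
      rw [s_zero] at h
      by_cases hc : c = 0
      · subst hc
        rw [s_zero] at h
        have : s b = 0 := by omega
        have hb : b = 0 := by
          by_contra hb
          have := s_lt b 0 (by omega)
          omega
        exact ⟨hb.symm, hb.symm⟩
      · exfalso
        -- descent on `c`
        have key : ∀ c b : ℕ, s c = 2 * s b → c = 0 := by
          intro c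
          induction c using Nat.strong_induction_on with
          | _ c ihc =>
            intro b h
            rcases Nat.even_or_odd' c with ⟨c', rfl | rfl⟩ <;>
              rcases Nat.even_or_odd' b with ⟨b', rfl | rfl⟩
            · rw [s_even, s_even] at h
              by_cases h0 : c' = 0
              · omega
              · have := ihc c' (by omega) b' (by omega)
                omega
            · rw [s_even, s_odd] at h
              omega
            · rw [s_odd, s_even] at h
              omega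
            · rw [s_odd, s_odd] at h
              omega
        exact hc (key c b (by omega))
    · rcases Nat.even_or_odd' a with ⟨a', rfl | rfl⟩ <;>
        rcases Nat.even_or_odd' b with ⟨b', rfl | rfl⟩ <;>
        rcases Nat.even_or_odd' c with ⟨c', rfl | rfl⟩ <;>
        simp only [s_even, s_odd] at h <;> try (exfalso; omega)
      · have := ih a' (by omega) b' c' (by omega)
        omega
      · have := ih a' (by omega) b' c' (by omega)
        omega

theorem s_cov : ∀ r : ℕ, ∃ u v : ℕ, u ≤ v ∧ 2 * s v = s u + r := by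
  intro r
  induction r using Nat.strong_induction_on with
  | _ r ih =>
    by_cases hr : r = 0
    · exact ⟨0, 0, le_rfl, by rw [hr, s_zero]⟩
    · obtain ⟨u, v, huv, h⟩ := ih (r / 3) (by omega)
      rcases (by omega : r % 3 = 0 ∨ r % 3 = 1 ∨ r % 3 = 2) with h3 | h3 | h3
      · exact ⟨2 * u, 2 * v, by omega, by rw [s_even, s_even]; omega⟩
      · exact ⟨2 * u + 1, 2 * v + 1, by omega, by rw [s_odd, s_odd]; omega⟩
      · exact ⟨2 * u, 2 * v + 1, by omega, by rw [s_even, s_odd]; omega⟩

theorem s_pow_add (k : ℕ) : ∀ i, i < 2 ^ k → s (2 ^ k + i) = 3 ^ k + s i := by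
  induction k with
  | zero =>
    intro i hi
    have : i = 0 := by simpa using hi
    subst this
    simp [s_one, s_zero]
  | succ k ih =>
    intro i hi
    rw [pow_succ] at hi
    rcases Nat.even_or_odd' i with ⟨j, rfl | rfl⟩
    · have : 2 ^ (k + 1) + 2 * j = 2 * (2 ^ k + j) := by ring
      rw [this, s_even, s_even, ih j (by omega)]
      ring
    · have : 2 ^ (k + 1) + (2 * j + 1) = 2 * (2 ^ k + j) + 1 := by ring
      rw [this, s_odd, s_odd, ih j (by omega)]
      ring

theorem s_pow_sub_one (k : ℕ) : 2 * s (2 ^ k - 1) + 1 = 3 ^ k := by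
  induction k with
  | zero => simp [s_zero]
  | succ k ih =>
    have h1 : 2 ^ (k + 1) - 1 = 2 * (2 ^ k - 1) + 1 := by
      have : 0 < 2 ^ k := by positivity
      rw [pow_succ]
      omega
    rw [h1, s_odd, pow_succ, ← ih]
    ring

/-- The main construction. -/
theorem exists_seq {r : ℕ} (h : Single r) :
    ∃ a : ℕ → ℕ, ∃ t : ℕ, StrictMono a ∧
        (∀ i j k : ℕ, i < j → j < k → a i + a k ≠ 2 * a j) ∧
        (∀ n : ℕ, t < n → ∀ m : ℕ, a (n - 1) < m → m < a n →
          ∃ i j : ℕ, i < j ∧ j < n ∧ a i + m = 2 * a j) ∧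
        (∃ k : ℕ, ∀ k' : ℕ, k ≤ k' →
          (∀ i : ℕ, i < 2 ^ k' → a (2 ^ k' + i) = a (2 ^ k') + a i) ∧
          ((a (2 ^ k') : ℤ) = 2 * (a (2 ^ k' - 1) : ℤ) - r + 1)) := by
  obtain ⟨M, m, P, h0, hP, t, ht, hmax, hr⟩ := h
  have hM : 0 < M := lt_of_le_of_lt (Nat.zero_le _) (hP.lt 0 h0)
  have hpos : 0 < 2 ^ m := by positivity
  let e : Fin (2 ^ m) ↪o ℕ := P.orderEmbOfFin hP.card
  have heP : ∀ i, e i ∈ P := fun i => Finset.orderEmbOfFin_mem P hP.card i
  have hes : ∀ p ∈ P, ∃ i, e i = p := by
    intro p hp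
    have := Finset.range_orderEmbOfFin P hP.card
    have hp' : p ∈ Set.range (P.orderEmbOfFin hP.card) := by
      rw [this]
      exact hp
    exact hp'
  let f : ℕ → ℕ := fun n => e ⟨n % 2 ^ m, Nat.mod_lt _ hpos⟩
  have hfP : ∀ n, f n ∈ P := fun n => heP _
  have hfM : ∀ n, f n < M := fun n => hP.lt _ (hfP n)
  let a : ℕ → ℕ := fun n => f n + M * s (n / 2 ^ m)
  have ha : ∀ n, a n = f n + M * s (n / 2 ^ m) := fun n => rfl
  have hmono : StrictMono a := by
    intro i j hij
    rw [ha, ha]
    have hdiv : i / 2 ^ m ≤ j / 2 ^ m := Nat.div_le_div_right hij.le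
    rcases hdiv.lt_or_eq with hlt | heq
    · have h1 := s_lt _ _ hlt
      have h2 : M * (s (i / 2 ^ m) + 1) ≤ M * s (j / 2 ^ m) := Nat.mul_le_mul_left _ h1
      have h3 := hfM i
      have h4 : M * (s (i / 2 ^ m) + 1) = M * s (i / 2 ^ m) + M := by ring
      omega
    · rw [heq]
      have h1 : i % 2 ^ m < j % 2 ^ m := by
        have hi := Nat.div_add_mod i (2 ^ m)
        have hj := Nat.div_add_mod j (2 ^ m)
        rw [heq] at hi
        omega
      have h2 : f i < f j := e.strictMono h1
      omega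
  -- every element `p + M * s u` is a term
  have hterm : ∀ p ∈ P, ∀ u, ∃ n, a n = p + M * s u := by
    intro p hp u
    obtain ⟨i, hi⟩ := hes p hp
    refine ⟨2 ^ m * u + i, ?_⟩
    rw [ha]
    have h1 : (2 ^ m * u + i.val) / 2 ^ m = u := by
      rw [Nat.mul_add_div hpos, Nat.div_eq_of_lt i.isLt, add_zero]
    have h2 : (2 ^ m * u + i.val) % 2 ^ m = i.val := by
      rw [Nat.mul_add_mod, Nat.mod_eq_of_lt i.isLt]
    have h3 : f (2 ^ m * u + i) = p := by
      show e ⟨(2 ^ m * u + i.val) % 2 ^ m, _⟩ = p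
      rw [← hi]
      congr 1
      exact Fin.ext h2
    rw [h1, h3]
  have hf0 : f 0 = 0 := by
    obtain ⟨i, hi⟩ := hes 0 h0
    have h1 : f 0 ≤ e i := by
      show e ⟨0 % 2 ^ m, _⟩ ≤ e i
      apply e.monotone
      show 0 % 2 ^ m ≤ i.val
      simp
    omega
  have hflast : ∀ n, n % 2 ^ m = 2 ^ m - 1 → f n = t := by
    intro n hn
    obtain ⟨i, hi⟩ := hes t ht
    have h1 : e i ≤ f n := by
      apply e.monotone
      show i.val ≤ n % 2 ^ m
      have := i.isLt
      omega
    have h2 := hmax _ (hfP n)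
    omega
  refine ⟨a, 2 ^ m, hmono, ?_, ?_, m, ?_⟩
  · -- no three-term progression
    intro i j k hij hjk h
    rw [ha, ha, ha] at h
    have hmod : f i + f k ≡ 2 * f j [MOD M] := by
      have h1 : f i + f k + M * (s (i / 2 ^ m) + s (k / 2 ^ m)) =
          2 * f j + M * (2 * s (j / 2 ^ m)) := by
        rw [mul_add]; rw [mul_add] at h; linarith
      have h2 : (f i + f k + M * (s (i / 2 ^ m) + s (k / 2 ^ m))) % M = (f i + f k) % M :=
        Nat.add_mul_mod_self_left _ _ _
      have h3 : (2 * f j + M * (2 * s (j / 2 ^ m))) % M = (2 * f j) % M :=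
        Nat.add_mul_mod_self_left _ _ _
      show (f i + f k) % M = (2 * f j) % M
      rw [← h2, ← h3, h1]
    obtain ⟨h1, h2⟩ := hP.free _ (hfP i) _ (hfP j) _ (hfP k) hmod
    rw [h1, h2] at h
    have h3 : M * (s (i / 2 ^ m) + s (k / 2 ^ m)) = M * (2 * s (j / 2 ^ m)) := by
      rw [mul_add]; rw [mul_add] at h; linarith
    have h4 := Nat.eq_of_mul_eq_mul_left hM h3
    obtain ⟨h5, h6⟩ := s_free _ _ _ h4
    have h7 : a i = a j := by rw [ha, ha, h1, h5]
    exact absurd (hmono hij) (by omega)
  · -- coverage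
    intro n hn z hz1 hz2
    have hzM : M < z := by
      have h1 : a (2 ^ m) = M := by
        rw [ha]
        have h1 : 2 ^ m / 2 ^ m = 1 := Nat.div_self hpos
        have h2 : f (2 ^ m) = 0 := by
          rw [← hf0]
          show e ⟨2 ^ m % 2 ^ m, _⟩ = e ⟨0 % 2 ^ m, _⟩
          congr 1
          exact Fin.ext (by simp)
        rw [h1, h2, s_one]
        ring
      have h2 : a (2 ^ m) ≤ a (n - 1) := hmono.monotone (by omega)
      omega
    obtain ⟨p, hp, q, hq, hpq, hc⟩ := hP.cov z
    have hqM := hP.lt q hq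
    obtain ⟨w, hw⟩ : ∃ w : ℕ, z + p = 2 * q + M * w := by
      rcases Nat.lt_or_ge (z + p) (2 * q) with hlt | hge
      · exfalso
        have h1 := (Nat.modEq_iff_dvd' hlt.le).1 hc.symm
        have h2 := Nat.le_of_dvd (by omega) h1
        omega
      · obtain ⟨w, hw⟩ := (Nat.modEq_iff_dvd' hge).1 hc
        exact ⟨w, by omega⟩
    obtain ⟨u, v, huv, hs⟩ := s_cov w
    obtain ⟨i, hi⟩ := hterm p hp u
    obtain ⟨j, hj⟩ := hterm q hq v
    have heq : a i + z = 2 * a j := by
      rw [hi, hj]
      have : M * (2 * s v) = M * (s u + w) := by rw [hs]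
      rw [mul_add] at this
      linarith
    have hle : a i ≤ a j := by
      rw [hi, hj]
      have := Nat.mul_le_mul_left M (s_strictMono.monotone huv)
      omega
    have hne : a i ≠ a j := by
      intro hE
      have hzj : z = a j := by omega
      rw [hzj] at hz1 hz2
      have h1 := hmono.lt_iff_lt.1 hz1
      have h2 := hmono.lt_iff_lt.1 hz2
      omega
    refine ⟨i, j, hmono.lt_iff_lt.1 (by omega), ?_, heq⟩
    apply hmono.lt_iff_lt.1
    omega
  · -- independence
    intro k' hk'
    obtain ⟨c, rfl⟩ := Nat.exists_eq_add_of_le hk'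
    have hpow : 2 ^ (m + c) = 2 ^ m * 2 ^ c := pow_add 2 m c
    have hbase : a (2 ^ (m + c)) = M * 3 ^ c := by
      rw [ha]
      have h1 : 2 ^ (m + c) / 2 ^ m = 2 ^ c := by
        rw [hpow, Nat.mul_div_cancel_left _ hpos]
      have h2 : f (2 ^ (m + c)) = 0 := by
        rw [← hf0]
        show e ⟨2 ^ (m + c) % 2 ^ m, _⟩ = e ⟨0 % 2 ^ m, _⟩
        congr 1
        refine Fin.ext ?_
        show 2 ^ (m + c) % 2 ^ m = 0 % 2 ^ m
        rw [hpow]
        simp
      have h3 := s_pow_add c 0 (by positivity)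
      rw [add_zero, s_zero, add_zero] at h3
      rw [h1, h2, h3]
      ring
    constructor
    · intro i hi
      rw [hbase, ha, ha i]
      have h1 : (2 ^ (m + c) + i) / 2 ^ m = 2 ^ c + i / 2 ^ m := by
        rw [hpow, Nat.mul_add_div hpos]
      have h2 : f (2 ^ (m + c) + i) = f i := by
        show e ⟨(2 ^ (m + c) + i) % 2 ^ m, _⟩ = e ⟨i % 2 ^ m, _⟩
        congr 1
        refine Fin.ext ?_
        show (2 ^ (m + c) + i) % 2 ^ m = i % 2 ^ m
        rw [hpow, Nat.mul_add_mod]
      have h3 : i / 2 ^ m < 2 ^ c := by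
        rw [Nat.div_lt_iff_lt_mul hpos]
        rw [hpow] at hi
        linarith
      rw [h1, h2, s_pow_add c _ h3]
      ring
    · have hsub : a (2 ^ (m + c) - 1) = t + M * s (2 ^ c - 1) := by
        have hc : 0 < 2 ^ c := by positivity
        have h0' : 2 ^ (m + c) - 1 = 2 ^ m * (2 ^ c - 1) + (2 ^ m - 1) := by
          rw [hpow]
          obtain ⟨d, hd⟩ := Nat.exists_eq_add_of_lt hc
          rw [hd]
          simp only [zero_add, Nat.add_sub_cancel]
          rw [mul_add]
          omega
        rw [ha, h0']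
        have h1 : (2 ^ m * (2 ^ c - 1) + (2 ^ m - 1)) / 2 ^ m = 2 ^ c - 1 := by
          rw [Nat.mul_add_div hpos, Nat.div_eq_of_lt (by omega), add_zero]
        have h2 : f (2 ^ m * (2 ^ c - 1) + (2 ^ m - 1)) = t := by
          apply hflast
          rw [Nat.mul_add_mod, Nat.mod_eq_of_lt (by omega)]
        rw [h1, h2]
      rw [hbase, hsub]
      have h3 := s_pow_sub_one c
      have h4 : (3 : ℤ) ^ c = 2 * (s (2 ^ c - 1) : ℤ) + 1 := by
        exact_mod_cast h3.symm
      have h5 : (2 * t + 1 : ℤ) = M + r := by exact_mod_cast hr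
      push_cast
      rw [h4]
      linear_combination (-1) * h5

end Pool.Agent.Work.MP_a323b2_co
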