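import Pool.Agent.Work.MP_a323b2_co.Data
import Pool.Agent.Work.MP_a323b2_co.Seq

/-!
# Every value except six is attained
-/

namespace Pool.Agent.Work.MP_a323b2_co

theorem dataP_ok : dataP.all chkD = true := by decide +kernel

theorem dataS_ok : dataS.all chkE = true := by decide +kernel

/-- The values of the base pairs. -/
def rsP : List ℕ := dataP.map D.r

/-- The values of the base sets. -/
def rsS : List ℕ := dataS.map E.r

theorem pair_of_mem {r : ℕ} (h : r ∈ rsP) : Pair r := by
  obtain ⟨d, hd, rfl⟩ := List.mem_map.1 h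
  exact chkD_spec (List.all_eq_true.1 dataP_ok d hd)

theorem single_of_mem {r : ℕ} (h : r ∈ rsS) : Single r := by
  obtain ⟨d, hd, rfl⟩ := List.mem_map.1 h
  exact chkE_spec (List.all_eq_true.1 dataS_ok d hd)

/-- The values obtained from the base pairs in at most one step. -/
def avail (r : ℕ) : Bool :=
  rsP.any (Nat.beq r) || (rsP.any fun u => Nat.beq (r + 2) (3 * u)) ||
    (rsP.any fun u => Nat.beq r (3 * u)) || (rsP.any fun u => Nat.beq r (3 * u + 2))

theorem pair_of_avail {r : ℕ} (h : avail r = true) : Pair r := by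
  unfold avail at h
  simp only [Bool.or_eq_true, List.any_eq_true] at h
  rcases h with ((⟨u, hu, h⟩ | ⟨u, hu, h⟩) | ⟨u, hu, h⟩) | ⟨u, hu, h⟩
  · rw [Nat.eq_of_beq_eq_true h]
    exact pair_of_mem hu
  · exact (pair_of_mem hu).sub (Nat.eq_of_beq_eq_true h)
  · exact (pair_of_mem hu).add (Or.inl rfl) (by rw [Nat.eq_of_beq_eq_true h])
  · exact (pair_of_mem hu).add (Or.inr rfl) (by rw [Nat.eq_of_beq_eq_true h])

theorem avail_even : ((List.range 76).all fun i => avail (76 + 2 * i)) = true := by
  decide +kernel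

theorem avail_odd : ((List.range 86).all fun i => avail (87 + 2 * i)) = true := by
  decide +kernel

theorem pair_even (k : ℕ) : Pair (76 + 2 * k) := by
  induction k using Nat.strong_induction_on with
  | _ k ih =>
    rcases Nat.lt_or_ge k 76 with h | h
    · exact pair_of_avail (List.all_eq_true.1 avail_even k (List.mem_range.2 h))
    · rcases (by omega : (76 + 2 * k) % 3 = 0 ∨ (76 + 2 * k) % 3 = 1 ∨ (76 + 2 * k) % 3 = 2) with
        h3 | h3 | h3
      · exact (ih (((76 + 2 * k) / 3 - 76) / 2) (by omega)).add (Or.inl rfl) (by omega)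
      · exact (ih (((78 + 2 * k) / 3 - 76) / 2) (by omega)).sub (by omega)
      · exact (ih (((74 + 2 * k) / 3 - 76) / 2) (by omega)).add (Or.inr rfl) (by omega)

theorem pair_odd (k : ℕ) : Pair (87 + 2 * k) := by
  induction k using Nat.strong_induction_on with
  | _ k ih =>
    rcases Nat.lt_or_ge k 86 with h | h
    · exact pair_of_avail (List.all_eq_true.1 avail_odd k (List.mem_range.2 h))
    · rcases (by omega : (87 + 2 * k) % 3 = 0 ∨ (87 + 2 * k) % 3 = 1 ∨ (87 + 2 * k) % 3 = 2) with
        h3 | h3 | h3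
      · exact (ih (((87 + 2 * k) / 3 - 87) / 2) (by omega)).add (Or.inl rfl) (by omega)
      · exact (ih (((89 + 2 * k) / 3 - 87) / 2) (by omega)).sub (by omega)
      · exact (ih (((85 + 2 * k) / 3 - 87) / 2) (by omega)).add (Or.inr rfl) (by omega)

theorem small_ok : ((List.range 87).all fun r =>
    rsP.any (Nat.beq r) || rsS.any (Nat.beq r) ||
      [1, 3, 5, 9, 11, 15].any (Nat.beq r)) = true := by
  decide +kernel

/-- Every value except `1, 3, 5, 9, 11, 15` is attained. -/
theorem single_all (r : ℕ) (h : r ∉ [1, 3, 5, 9, 11, 15]) : Single r := by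
  rcases Nat.lt_or_ge r 87 with hr | hr
  · have h1 := List.all_eq_true.1 small_ok r (List.mem_range.2 hr)
    simp only [Bool.or_eq_true, List.any_eq_true] at h1
    rcases h1 with (⟨u, hu, h1⟩ | ⟨u, hu, h1⟩) | ⟨u, hu, h1⟩
    · rw [Nat.eq_of_beq_eq_true h1]
      exact (pair_of_mem hu).single
    · rw [Nat.eq_of_beq_eq_true h1]
      exact single_of_mem hu
    · exfalso
      apply h
      rw [Nat.eq_of_beq_eq_true h1]
      exact hu
  · rcases Nat.even_or_odd' r with ⟨k, rfl | rfl⟩
    · obtain ⟨j, hj⟩ := Nat.exists_eq_add_of_le (by omega : 38 ≤ k)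
      have : 2 * k = 76 + 2 * j := by omega
      rw [this]
      exact (pair_even j).single
    · obtain ⟨j, hj⟩ := Nat.exists_eq_add_of_le (by omega : 43 ≤ k)
      have : 2 * k + 1 = 87 + 2 * j := by omega
      rw [this]
      exact (pair_odd j).single

end Pool.Agent.Work.MP_a323b2_co
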